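import Pool.Agent.Helper368_LD.Count

set_option autoImplicit false

/-! The odd squarefree numbers. -/

open scoped Classical

namespace Pool.Agent.U491.GZ

open Finset hiding ext
open Filter

/-- number of odd squarefree integers up to `X` -/
noncomputable def O (X : ℕ) : ℕ := ((Icc 1 X).filter fun D : ℕ => Squarefree D ∧ D % 2 = 1).card

noncomputable def cc : ℝ := 4 / Real.pi ^ 2

lemma cc_pos : 0 < cc := by unfold cc; positivity

lemma O_bound (X : ℕ) (hX : 1 ≤ X) : |(O X : ℝ) - cc * X| ≤ 2 * √X := by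
  have h := Pool.Agent.Helper368_LD.sqf_cop_count Nat.prime_two (X := (X : ℝ)) (by exact_mod_cast hX)
  have h1 : ∑ n ∈ (Finset.Icc 1 ⌊(X : ℝ)⌋₊).filter (fun n => Odd n ∧ Squarefree n),
      (if 2 ∣ n then 0 else 1 : ℂ) = ((O X : ℝ) : ℂ) := by
    rw [Nat.floor_natCast]
    unfold O
    rw [Finset.card_filter]
    push_cast
    rw [Finset.sum_filter]
    refine Finset.sum_congr rfl fun n _ => ?_
    by_cases h2 : n % 2 = 1
    · have h3 : Odd n := Nat.odd_iff.mpr h2
      have h4 : ¬ 2 ∣ n := by omega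
      by_cases h5 : Squarefree n
      · simp [h2, h3, h4, h5]
      · simp [h5]
    · have h3 : ¬ Odd n := fun h => h2 (Nat.odd_iff.mp h)
      simp [h2, h3]
  rw [h1] at h
  have h2 : Pool.Agent.Helper368_LD.wp 2 = 1 := by simp [Pool.Agent.Helper368_LD.wp]
  rw [h2, mul_one] at h
  rw [← Complex.ofReal_sub, Complex.norm_real, Real.norm_eq_abs] at h
  exact h

lemma lim_of_bound (f : ℕ → ℝ) (κ K : ℝ) (h : ∀ X : ℕ, 2 ≤ X → |f X - κ * X| ≤ K * √X) :
    Tendsto (fun X : ℕ => f X / X) atTop (nhds κ) := by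
  have h0 : Tendsto (fun X : ℕ => K / √(X : ℝ)) atTop (nhds 0) := by
    apply Tendsto.div_atTop tendsto_const_nhds
    exact Real.tendsto_sqrt_atTop.comp tendsto_natCast_atTop_atTop
  rw [tendsto_iff_norm_sub_tendsto_zero]
  refine squeeze_zero' (Eventually.of_forall fun _ => norm_nonneg _) ?_ h0
  filter_upwards [eventually_ge_atTop 2] with X hX
  have hX0 : (0 : ℝ) < X := by exact_mod_cast (by omega : 0 < X)
  have hs : 0 < √(X : ℝ) := Real.sqrt_pos.mpr hX0
  have hss : √(X : ℝ) * √(X : ℝ) = X := Real.mul_self_sqrt hX0.le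
  have h1 : f X / X - κ = (f X - κ * X) / X := by field_simp
  rw [h1, norm_div, Real.norm_eq_abs, Real.norm_eq_abs, abs_of_pos hX0, div_le_div_iff₀ hX0 hs]
  have h2 := h X hX
  calc |f X - κ * X| * √X ≤ (K * √X) * √X := mul_le_mul_of_nonneg_right h2 hs.le
    _ = K * X := by rw [mul_assoc, hss]

lemma lim1 : Tendsto (fun X : ℕ => (O X : ℝ) / X) atTop (nhds cc) :=
  lim_of_bound _ cc 2 fun X hX => O_bound X (by omega)

lemma lim2 : Tendsto (fun X : ℕ => (O (X / 2) : ℝ) / X) atTop (nhds (cc / 2)) := by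
  refine lim_of_bound _ (cc / 2) (2 + cc / 2) fun X hX => ?_
  have hX0 : (2 : ℝ) ≤ X := by exact_mod_cast hX
  have h1 := O_bound (X / 2) (by omega)
  have h2 : √((X / 2 : ℕ) : ℝ) ≤ √(X : ℝ) := by
    apply Real.sqrt_le_sqrt
    exact_mod_cast Nat.div_le_self X 2
  have h3 : |((X / 2 : ℕ) : ℝ) - X / 2| ≤ 1 / 2 := by
    have h4 : 2 * (X / 2) ≤ X := by omega
    have h5 : X ≤ 2 * (X / 2) + 1 := by omega
    have h4' : 2 * ((X / 2 : ℕ) : ℝ) ≤ X := by exact_mod_cast h4
    have h5' : (X : ℝ) ≤ 2 * ((X / 2 : ℕ) : ℝ) + 1 := by exact_mod_cast h5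
    rw [abs_le]; constructor <;> linarith
  have h6 : (O (X / 2) : ℝ) - cc / 2 * X =
      ((O (X / 2) : ℝ) - cc * ((X / 2 : ℕ) : ℝ)) + cc * (((X / 2 : ℕ) : ℝ) - X / 2) := by ring
  have h7 : 1 ≤ √(X : ℝ) := by rw [Real.one_le_sqrt]; linarith
  have hc := cc_pos
  calc |(O (X / 2) : ℝ) - cc / 2 * X| ≤ |(O (X / 2) : ℝ) - cc * ((X / 2 : ℕ) : ℝ)| +
        |cc * (((X / 2 : ℕ) : ℝ) - X / 2)| := by rw [h6]; exact abs_add_le _ _
    _ ≤ 2 * √(X : ℝ) + cc * (1 / 2) := by
        rw [abs_mul, abs_of_pos hc]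
        refine add_le_add (h1.trans (by linarith)) (mul_le_mul_of_nonneg_left h3 hc.le)
    _ ≤ (2 + cc / 2) * √(X : ℝ) := by nlinarith

lemma Q_eq (X : ℕ) : ((Icc 1 X).filter fun D : ℕ => Squarefree D).card = O X + O (X / 2) := by
  have h1 : (Icc 1 X).filter (fun D : ℕ => Squarefree D) =
      ((Icc 1 X).filter fun D : ℕ => Squarefree D ∧ D % 2 = 1) ∪
      ((Icc 1 (X / 2)).filter fun D : ℕ => Squarefree D ∧ D % 2 = 1).image (fun D => 2 * D) := by
    ext D
    simp only [mem_filter, mem_Icc, mem_union, mem_image]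
    constructor
    · rintro ⟨hD, hs⟩
      by_cases h2 : D % 2 = 1
      · exact Or.inl ⟨hD, hs, h2⟩
      · right
        obtain ⟨m, rfl⟩ : ∃ m, D = 2 * m := ⟨D / 2, by omega⟩
        rw [Nat.squarefree_mul_iff] at hs
        refine ⟨m, ⟨⟨by omega, by omega⟩, hs.2.2, ?_⟩, rfl⟩
        exact Nat.odd_iff.mp ((Nat.coprime_two_left).mp hs.1)
    · rintro (⟨hD, hs, -⟩ | ⟨m, ⟨hm, hs, h2⟩, rfl⟩)
      · exact ⟨hD, hs⟩
      · refine ⟨⟨by omega, by omega⟩, ?_⟩
        rw [Nat.squarefree_mul_iff]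
        exact ⟨(Nat.coprime_two_left).mpr (Nat.odd_iff.mpr h2), Nat.prime_two.squarefree, hs⟩
  rw [h1, Finset.card_union_of_disjoint, Finset.card_image_of_injective]
  · rfl
  · intro a b h
    simpa using h
  · rw [Finset.disjoint_left]
    intro a ha hb
    simp only [mem_filter, mem_image] at ha hb
    obtain ⟨m, -, rfl⟩ := hb
    omega

lemma Z_eq (X : ℕ) : ((Icc (-(X : ℤ)) X).filter fun D : ℤ => Squarefree D).card =
    2 * ((Icc 1 X).filter fun D : ℕ => Squarefree D).card := by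
  have h1 : (Icc (-(X : ℤ)) X).filter (fun D : ℤ => Squarefree D) =
      ((Icc 1 X).filter fun D : ℕ => Squarefree D).image (fun D : ℕ => (D : ℤ)) ∪
      ((Icc 1 X).filter fun D : ℕ => Squarefree D).image (fun D : ℕ => -(D : ℤ)) := by
    ext D
    simp only [mem_filter, mem_Icc, mem_union, mem_image]
    constructor
    · rintro ⟨hD, hs⟩
      have hs' : Squarefree D.natAbs := Int.squarefree_natAbs.mpr hs
      have h0 : D ≠ 0 := hs.ne_zero
      rcases lt_or_gt_of_ne h0 with h | h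
      · right
        exact ⟨D.natAbs, ⟨⟨by omega, by omega⟩, hs'⟩, by omega⟩
      · left
        exact ⟨D.natAbs, ⟨⟨by omega, by omega⟩, hs'⟩, by omega⟩
    · rintro (⟨m, ⟨hm, hs⟩, rfl⟩ | ⟨m, ⟨hm, hs⟩, rfl⟩)
      · refine ⟨⟨by omega, by omega⟩, ?_⟩
        rw [← Int.squarefree_natAbs]; simpa using hs
      · refine ⟨⟨by omega, by omega⟩, ?_⟩
        rw [← Int.squarefree_natAbs]; simpa using hs
  rw [h1, Finset.card_union_of_disjoint, Finset.card_image_of_injective, Finset.card_image_of_injective]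
  · ring
  · intro a b h
    simpa using h
  · intro a b h
    simpa using h
  · rw [Finset.disjoint_left]
    intro a ha hb
    simp only [mem_filter, mem_image, mem_Icc] at ha hb
    obtain ⟨m, hm, rfl⟩ := ha
    obtain ⟨m', hm', h⟩ := hb
    omega

theorem main :
  Tendsto (fun X : ℕ => (((Icc 1 X).filter fun D : ℕ => Squarefree D ∧ D % 2 = 1).card : ℝ) /
    (((Icc (-(X : ℤ)) X).filter fun D : ℤ => Squarefree D).card : ℝ)) atTop (nhds (1 / 3)) ∧
  Tendsto (fun X : ℕ => (((Icc 1 (X / 2)).filter fun D : ℕ => Squarefree D ∧ D % 2 = 1).card : ℝ) /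
    (((Icc (-(X : ℤ)) X).filter fun D : ℤ => Squarefree D).card : ℝ)) atTop (nhds (1 / 6)) := by
  have hc := cc_pos
  have hZ : Tendsto (fun X : ℕ => (((Icc (-(X : ℤ)) X).filter fun D : ℤ => Squarefree D).card : ℝ) / X)
      atTop (nhds (3 * cc)) := by
    have h1 := (lim1.add lim2).const_mul 2
    have h2 : 2 * (cc + cc / 2) = 3 * cc := by ring
    rw [h2] at h1
    refine h1.congr fun X => ?_
    rw [Z_eq, Q_eq]
    push_cast
    ring
  have h3c : 3 * cc ≠ 0 := by positivity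
  constructor
  · have h := lim1.div hZ h3c
    have h2 : cc / (3 * cc) = 1 / 3 := by field_simp
    rw [h2] at h
    refine h.congr' ?_
    filter_upwards [eventually_ge_atTop 1] with X hX
    have hX0 : (X : ℝ) ≠ 0 := by exact_mod_cast (by omega : X ≠ 0)
    simp only [Pi.div_apply]
    rw [div_div_div_cancel_right₀ hX0]
    rfl
  · have h := lim2.div hZ h3c
    have h2 : cc / 2 / (3 * cc) = 1 / 6 := by field_simp; norm_num
    rw [h2] at h
    refine h.congr' ?_
    filter_upwards [eventually_ge_atTop 1] with X hX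
    have hX0 : (X : ℝ) ≠ 0 := by exact_mod_cast (by omega : X ≠ 0)
    simp only [Pi.div_apply]
    rw [div_div_div_cancel_right₀ hX0]
    rfl

end Pool.Agent.U491.GZ
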