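import Pool.Agent.U79.GZ.Stm2
import Pool.Agent.U491.GZ.SQF0

set_option autoImplicit false

namespace Pool.Agent.U491.GZ

open Pool.Agent.U79.GZ

theorem t_SQF : S_SQF := by
  have h := main
  unfold S_SQF
  first
    | exact h
    | convert h

end Pool.Agent.U491.GZ
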